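import Pool.Agent.Helper84.SPFinal

set_option autoImplicit false

namespace Pool.Agent.Results.MP_120218_co.LogGrowth

open Finset

/-- **One of the two operations grows at all orders, with exponent `max 1 ((log k) / 6 - 5)`.**

There are positive constants `C(1), C(2), …` such that for every finite nonempty set `A` of
integers, either `|hA| ≥ C(h) |A|^(max 1 ((log h)/6 - 5))` for every `h ≥ 1`, or
`|A^k| ≥ C(k) |A|^(max 1 ((log k)/6 - 5))` for every `k ≥ 1`.

In particular `max(|kA|, |A^k|) ≥ C(k) |A|^(max 1 ((log k)/6 - 5))` for all `k` and `A`, and the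
exponent is at least `(log k)/36` for every `k`. -/
theorem result : ∃ C : ℕ → ℝ, (∀ n, 0 < C n) ∧ ∀ A : Finset ℤ, A.Nonempty →
    (∀ h : ℕ, 1 ≤ h → C h * (A.card : ℝ) ^ (max 1 (Real.log h / 6 - 5)) ≤
      (((Fintype.piFinset (fun _ : Fin h => A)).image
        (fun f : Fin h → ℤ => ∑ i, f i)).card : ℝ)) ∨
    (∀ k : ℕ, 1 ≤ k → C k * (A.card : ℝ) ^ (max 1 (Real.log k / 6 - 5)) ≤
      (((Fintype.piFinset (fun _ : Fin k => A)).image
        (fun f : Fin k → ℤ => ∏ i, f i)).card : ℝ)) :=
  Pool.Agent.Helper84.SP.growth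

/-- the exponent is at least `(log k) / 36` -/
theorem exponent_ge (k : ℕ) : Real.log k / 36 ≤ max 1 (Real.log k / 6 - 5) := by
  rcases le_total (Real.log k) 36 with h | h
  · exact le_max_of_le_left (by linarith)
  · exact le_max_of_le_right (by linarith)

end Pool.Agent.Results.MP_120218_co.LogGrowth
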